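import Pool.Agent.U384.ST.Final

/-!
# Similar tetrahedra in 3-space: at least `c n ^ (5 / 3)`

Let `T` be a finite set which spans `ℝ³` (for instance the vertex set of a tetrahedron) and which
is similar to a set with rational coordinates. We show that for all large `n` some `n`-point set of
`ℝ³` contains at least `c n ^ (5 / 3)` subsets similar to `T`. The known construction, the
translates of the scaled copies `k T` in a cube of the integer lattice, gives `c n ^ (4 / 3)`. Here
the copies are also rotated: for an integer quaternion `q` the map `x ↦ p + q x q̄` is a similarity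
which maps the integer lattice into itself and multiplies distances by the norm of `q`; there are
`N ^ 2` quaternions of norm about `N`, but only `N` scalings.
-/

set_option autoImplicit false

namespace Pool.Agent.Results.MP_36f34d_co.RotatedCopies

/-- Three-dimensional Euclidean space. -/
abbrev E : Type := EuclideanSpace ℝ (Fin 3)

/-- A similarity of `ℝ³`: a map that multiplies all distances by the same positive factor. -/
def IsSimilarity (φ : E → E) : Prop := ∃ r : ℝ, 0 < r ∧ ∀ x y, dist (φ x) (φ y) = r * dist x y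

/-- A tetrahedron: a set of four points that do not lie in a plane. -/
def IsTetrahedron (T : Finset E) : Prop := T.card = 4 ∧ affineSpan ℝ (T : Set E) = ⊤

/-- `s(P, T)`: the number of subsets of `P` that are similar to `T`. -/
noncomputable def s (P T : Finset E) : ℕ :=
  {S : Finset E | S ⊆ P ∧ ∃ φ : E → E, IsSimilarity φ ∧ (S : Set E) = φ '' (T : Set E)}.ncard

/-- `f(n)`: the largest number of pairwise similar tetrahedra spanned by `n` points. -/
noncomputable def f (n : ℕ) : ℕ :=
  sSup {k : ℕ | ∃ P T : Finset E, P.card = n ∧ IsTetrahedron T ∧ k = s P T}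

/-- Some affine similarity maps `T` onto a set with rational coordinates. -/
def SimilarToRational (T : Finset E) : Prop :=
  ∃ ψ : E ≃ᵃ[ℝ] E, IsSimilarity ψ ∧ ∀ x ∈ T, ∀ i, ∃ q : ℚ, ψ x i = q

/-- For some `c > 0` and all large `n` some set of `n` points has at least `c n ^ (5 / 3)` subsets
similar to `T`. -/
def ManyCopies (T : Finset E) : Prop :=
  ∃ c : ℝ, 0 < c ∧ ∃ n₀ : ℕ, ∀ n : ℕ, n₀ ≤ n → ∃ P : Finset E, P.card = n ∧
    c * (n : ℝ) ^ (5 / 3 : ℝ) ≤ s P T

lemma s_le (P T : Finset E) : s P T ≤ 2 ^ P.card := by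
  classical
  rw [← Finset.card_powerset, ← Set.ncard_coe_finset]
  exact Set.ncard_le_ncard (fun S hS => by simpa using hS.1) (Finset.finite_toSet _)

/-- the tetrahedron `0, e₀, e₁, e₂` -/
noncomputable def T₀ : Finset E := by
  classical
  exact {0, EuclideanSpace.single 0 1, EuclideanSpace.single 1 1, EuclideanSpace.single 2 1}

lemma span_T₀ : affineSpan ℝ (T₀ : Set E) = ⊤ := by
  classical
  have h0 : (0 : E) ∈ (T₀ : Set E) := by simp [T₀]
  have hs : ∀ i : Fin 3, (EuclideanSpace.single i 1 : E) ∈ (T₀ : Set E) := by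
    intro i
    fin_cases i <;> simp [T₀]
  rw [AffineSubspace.affineSpan_eq_top_iff_vectorSpan_eq_top_of_nonempty ℝ E E ⟨0, h0⟩,
    eq_top_iff]
  intro x _
  have hx : x = ∑ i : Fin 3, x i • (EuclideanSpace.single i 1 : E) := by
    ext j
    simp [PiLp.single_apply, Fin.sum_univ_three]
    fin_cases j <;> simp
  rw [hx]
  refine Submodule.sum_mem _ fun i _ => Submodule.smul_mem _ _ ?_
  have := vsub_mem_vectorSpan ℝ (hs i) h0
  simpa using this

lemma tetra_T₀ : IsTetrahedron T₀ := by
  classical
  refine ⟨?_, span_T₀⟩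
  have h : ∀ i : Fin 3, (EuclideanSpace.single i 1 : E) ≠ 0 := by
    intro i h
    have := congrArg (fun x : E => x i) h
    simp at this
  have h2 : ∀ i j : Fin 3, i ≠ j → (EuclideanSpace.single i 1 : E) ≠ EuclideanSpace.single j 1 := by
    intro i j hij h
    have := congrArg (fun x : E => x i) h
    simp [hij] at this
  unfold T₀
  rw [Finset.card_insert_of_notMem, Finset.card_insert_of_notMem, Finset.card_insert_of_notMem,
    Finset.card_singleton]
  · simpa using h2 1 2 (by decide)
  · simp only [Finset.mem_insert, Finset.mem_singleton, not_or]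
    exact ⟨h2 0 1 (by decide), h2 0 2 (by decide)⟩
  · simp only [Finset.mem_insert, Finset.mem_singleton, not_or]
    exact ⟨(h 0).symm, (h 1).symm, (h 2).symm⟩

/-- **Similar copies with rotations.** (1) If `T` is a finite set with affine span `ℝ³` which some
affine similarity maps onto a set with rational coordinates, then there is `c > 0` such that for all
large `n` some set of `n` points of `ℝ³` has at least `c n ^ (5 / 3)` subsets similar to `T`.
(2) `f(n) ≥ c n ^ (5 / 3)` for all large `n`, for some `c > 0`. -/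
theorem result :
    (∀ T : Finset E, affineSpan ℝ (T : Set E) = ⊤ → SimilarToRational T → ManyCopies T) ∧
    ∃ c : ℝ, 0 < c ∧ ∃ n₀ : ℕ, ∀ n : ℕ, n₀ ≤ n → c * (n : ℝ) ^ (5 / 3 : ℝ) ≤ f n := by
  have main : ∀ T : Finset E, affineSpan ℝ (T : Set E) = ⊤ → SimilarToRational T →
      ManyCopies T := by
    rintro T hT ⟨ψ, hψ, hq⟩
    exact Pool.Agent.U384.ST.five_thirds_rat T hT ψ hψ hq
  refine ⟨main, ?_⟩
  have hsingle : ∀ j i : Fin 3, ∃ q : ℚ, (EuclideanSpace.single j 1 : E) i = q := by
    intro j i
    refine ⟨if i = j then 1 else 0, ?_⟩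
    rw [PiLp.single_apply]
    split_ifs <;> simp
  obtain ⟨c, hc, n₀, h⟩ := main T₀ span_T₀ ⟨AffineEquiv.refl ℝ E, ⟨1, one_pos, fun x y => by simp⟩,
    fun x hx i => by
      classical
      simp only [T₀, Finset.mem_insert, Finset.mem_singleton] at hx
      rcases hx with rfl | rfl | rfl | rfl
      · exact ⟨0, by simp⟩
      · exact hsingle 0 i
      · exact hsingle 1 i
      · exact hsingle 2 i⟩
  refine ⟨c, hc, n₀, fun n hn => ?_⟩
  obtain ⟨P, hP, h1⟩ := h n hn
  refine h1.trans ?_
  have : s P T₀ ≤ f n := le_csSup ⟨2 ^ n, by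
    rintro k ⟨P', T', hP', -, rfl⟩
    rw [← hP']
    exact s_le P' T'⟩ ⟨P, T₀, hP, tetra_T₀, rfl⟩
  exact_mod_cast this

end Pool.Agent.Results.MP_36f34d_co.RotatedCopies
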